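import Pool.Agent.Q247.HN.Norm

/-!
# An invariant norm on the `p`-adic Schrödinger representation that dominates no `‖·‖_α`

For every prime `p`, every `d ≥ 1` and every nontrivial smooth character `ψ` of `ℚ_p` with values in
`ℂ_p` there is an `ℋ`-invariant norm on the space `𝒮` of locally constant functions with compact
support on `ℚ_p^d` that dominates none of the norms `‖·‖_α`, `α` in the Lagrangian Grassmannian.

Idea.  Normalize `ψ` so that its kernel is `ℤ_p`, let `v₀` be the characteristic function of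
`ℤ_p^d`, let `w_i` run through the `2d` coordinate vectors of `W`, and let `u_N^(i)` be the sum of the
translates of `v₀` by the multiples `t p^(-N) w_i`, `0 ≤ t < p^N`.  The norm is the gauge of the
module `L` over the integers of `ℂ_p` spanned by the `ℋ`-orbits of `v₀` and of the vectors
`p^(-k) u_(n_k)^(i)`, for a fast growing sequence `n_k`.  For every intertwiner `T_g` there is an `i`
such that `sup |T_g u_N^(i)|` is bounded below for `N → ∞`, so the norm dominates no `‖·‖_α`.  That `L`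
contains no line follows from a count: modulo `p^k`, the twisted sums of the `p^(n_k)` translates
span a module that is generated by very few elements, since `z ↦ z^a` on the `p^N`-th roots of unity
is congruent modulo `p^s` to a polynomial of degree less than `p^(N-m)`, if `N = s p^m + m`.
-/

set_option autoImplicit false

namespace Pool.Agent.Results.MP_d060c1_nt.DominatesNone

open Finset

variable {p : ℕ} [hp : Fact p.Prime] {d : ℕ} {C : Type} [NormedField C]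

/-- The space `𝒮` of locally constant functions with compact support `ℚ_p^d → C`; in the result
`C = ℂ_p`. -/
def Schwartz (p : ℕ) [Fact p.Prime] (C : Type) [NormedField C] (d : ℕ) :
    Submodule C ((Fin d → ℚ_[p]) → C) where
  carrier := {f | IsLocallyConstant f ∧ HasCompactSupport f}
  zero_mem' := (Pool.Agent.Q247.HN.Sch p C d).zero_mem'
  add_mem' := (Pool.Agent.Q247.HN.Sch p C d).add_mem'
  smul_mem' := (Pool.Agent.Q247.HN.Sch p C d).smul_mem'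

/-- The function `x ↦ ψ(t + ½ a·b + b·x) f(x + a)`, where `w = (a, b)`, `a = w ∘ inl`,
`b = w ∘ inr`. -/
noncomputable def rhoFun (ψ : AddChar ℚ_[p] C) (w : Fin d ⊕ Fin d → ℚ_[p]) (t : ℚ_[p])
    (f : (Fin d → ℚ_[p]) → C) : (Fin d → ℚ_[p]) → C := fun x =>
  ψ (t + (1 / 2) * ((w ∘ Sum.inl) ⬝ᵥ (w ∘ Sum.inr)) + (w ∘ Sum.inr) ⬝ᵥ x) * f (x + w ∘ Sum.inl)

theorem char_lc {ψ : AddChar ℚ_[p] C} (hψ : IsOpen {x | ψ x = 1}) : IsLocallyConstant ψ := by
  rw [IsLocallyConstant.iff_eventually_eq]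
  intro x
  have h1 : Filter.Tendsto (fun y => y - x) (nhds x) (nhds 0) := by
    have : Filter.Tendsto (fun y => y - x) (nhds x) (nhds (x - x)) :=
      (continuous_id.sub continuous_const).tendsto x
    rwa [sub_self] at this
  have h2 : {x | ψ x = 1} ∈ nhds (0 : ℚ_[p]) := hψ.mem_nhds (by simp)
  filter_upwards [h1 h2] with y hy
  have h3 : y = x + (y - x) := by ring
  rw [h3, AddChar.map_add_eq_mul]
  have h4 : ψ (y - x) = 1 := hy
  rw [h4, mul_one]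

theorem rhoFun_mem {ψ : AddChar ℚ_[p] C} (hψ : IsOpen {x | ψ x = 1})
    (w : Fin d ⊕ Fin d → ℚ_[p]) (t : ℚ_[p]) {f : (Fin d → ℚ_[p]) → C}
    (hf : f ∈ Schwartz p C d) : rhoFun ψ w t f ∈ Schwartz p C d := by
  have hlin : Continuous fun x : Fin d → ℚ_[p] => (w ∘ Sum.inr) ⬝ᵥ x :=
    continuous_finsetSum _ fun i _ => continuous_const.mul (continuous_apply i)
  have hm : IsLocallyConstant fun x : Fin d → ℚ_[p] =>
      ψ (t + (1 / 2) * ((w ∘ Sum.inl) ⬝ᵥ (w ∘ Sum.inr)) + (w ∘ Sum.inr) ⬝ᵥ x) :=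
    (char_lc hψ).comp_continuous (continuous_const.add hlin)
  refine ⟨?_, ?_⟩
  · exact hm.mul (hf.1.comp_continuous (continuous_id.add continuous_const))
  · have h1 : HasCompactSupport (f ∘ Homeomorph.addRight (w ∘ Sum.inl)) := hf.2.comp_homeomorph _
    exact HasCompactSupport.mul_left (f := fun x : Fin d → ℚ_[p] =>
      ψ (t + (1 / 2) * ((w ∘ Sum.inl) ⬝ᵥ (w ∘ Sum.inr)) + (w ∘ Sum.inr) ⬝ᵥ x)) h1

/-- The Schrödinger representation: the operator `ρ([w, t])` on `𝒮`. -/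
noncomputable def rho (ψ : AddChar ℚ_[p] C) (hψ : IsOpen {x | ψ x = 1})
    (w : Fin d ⊕ Fin d → ℚ_[p]) (t : ℚ_[p]) (f : Schwartz p C d) : Schwartz p C d :=
  ⟨rhoFun ψ w t f, rhoFun_mem hψ w t f.2⟩

/-- A nonarchimedean norm on `𝒮`. -/
structure IsNorm (N : Schwartz p C d → ℝ) : Prop where
  nonneg : ∀ f, 0 ≤ N f
  eq_zero_iff : ∀ f, N f = 0 ↔ f = 0
  smul : ∀ (c : C) (f : Schwartz p C d), N (c • f) = ‖c‖ * N f
  add_le : ∀ f g, N (f + g) ≤ max (N f) (N g)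

/-- Invariance under the Heisenberg group. -/
def Invariant (ψ : AddChar ℚ_[p] C) (hψ : IsOpen {x | ψ x = 1}) (N : Schwartz p C d → ℝ) : Prop :=
  ∀ w t f, N (rho ψ hψ w t f) = N f

/-- `N` dominates `M`: there is `c > 0` with `M ≤ c N`. -/
def Dominates (N M : Schwartz p C d → ℝ) : Prop := ∃ c : ℝ, 0 < c ∧ ∀ f, M f ≤ c * N f

/-- `T` is an operator `T_g` (for `w ↦ w g`): a linear bijection of `𝒮` such that
`ρ([w,t]) ∘ T = T ∘ ρ([wg,t])` for all `[w,t]`. -/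
structure IsOperator (ψ : AddChar ℚ_[p] C) (hψ : IsOpen {x | ψ x = 1})
    (g : Matrix (Fin d ⊕ Fin d) (Fin d ⊕ Fin d) ℚ_[p]) (T : Schwartz p C d → Schwartz p C d) :
    Prop where
  bijective : Function.Bijective T
  linear : IsLinearMap C T
  intertwines : ∀ w t f, rho ψ hψ w t (T f) = T (rho ψ hψ (Matrix.vecMul w g) t f)

/-- The sup norm. -/
noncomputable def supNorm (f : Schwartz p C d) : ℝ := ⨆ x, ‖f.1 x‖

/-- The characteristic function of `ℤ_p^d`. -/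
noncomputable def oneZp (p : ℕ) [Fact p.Prime] (C : Type) [NormedField C] (d : ℕ) :
    (Fin d → ℚ_[p]) → C := fun x => open Classical in if ∀ i, ‖x i‖ ≤ 1 then 1 else 0

/-- `M` is the norm `‖·‖_α` for `α = P g`, where `T = T_g`: a positive multiple of
`f ↦ sup |T_g f|` with the value `1` at the characteristic function of `ℤ_p^d`. -/
def IsAlphaNorm (T : Schwartz p C d → Schwartz p C d) (M : Schwartz p C d → ℝ) : Prop :=
  (∃ r : ℝ, 0 < r ∧ ∀ f, M f = r * supNorm (T f)) ∧ ∀ f, f.1 = oneZp p C d → M f = 1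

/-- `N` dominates none of the norms `‖·‖_α`. -/
def DominatesNoAlpha (ψ : AddChar ℚ_[p] C) (hψ : IsOpen {x | ψ x = 1}) (N : Schwartz p C d → ℝ) :
    Prop :=
  ∀ g ∈ Matrix.symplecticGroup (Fin d) ℚ_[p], ∀ T : Schwartz p C d → Schwartz p C d,
    IsOperator ψ hψ g T → ∀ M : Schwartz p C d → ℝ, IsAlphaNorm T M → ¬ Dominates N M

/-! ### Proof -/

theorem bdd (f : Schwartz p ℂ_[p] d) :
    BddAbove (Set.range fun x => ‖f.1 x‖) := by
  obtain ⟨A, hA⟩ := f.2.1.continuous.bounded_above_of_compact_support f.2.2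
  exact ⟨A, by rintro _ ⟨x, rfl⟩; exact hA x⟩

theorem le_sup (f : Schwartz p ℂ_[p] d) (x : Fin d → ℚ_[p]) :
    ‖f.1 x‖ ≤ supNorm f := le_ciSup (bdd f) x

theorem supNorm_pos {f : Schwartz p ℂ_[p] d} (hf : f ≠ 0) : 0 < supNorm f := by
  obtain ⟨x, hx⟩ : ∃ x, (f : (Fin d → ℚ_[p]) → ℂ_[p]) x ≠ 0 := by
    by_contra hcon
    push Not at hcon
    exact hf (Subtype.ext (funext hcon))
  exact lt_of_lt_of_le (norm_pos_iff.2 hx) (le_sup f x)

/-- The conductor of `ψ`. -/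
theorem exists_conductor {ψ : AddChar ℚ_[p] ℂ_[p]} (hψ : IsOpen {x | ψ x = 1}) (h1 : ψ ≠ 1) :
    ∃ κ : ℤ, (∀ x : ℚ_[p], ‖x‖ ≤ 1 → ψ ((p : ℚ_[p]) ^ κ * x) = 1) ∧
      ψ ((p : ℚ_[p]) ^ κ * (p : ℚ_[p])⁻¹) ≠ 1 := by
  have hpp := Pool.Agent.Q247.HN.one_lt_p p
  have hp0 := Pool.Agent.Q247.HN.p_ne (p := p)
  have hpos := Pool.Agent.Q247.HN.p_pos p
  -- the ball
  obtain ⟨ε, hε, hball⟩ := Metric.isOpen_iff.1 hψ 0 (by simp)
  obtain ⟨n₀, hn₀⟩ := exists_pow_lt_of_lt_one hε (inv_lt_one_of_one_lt₀ hpp)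
  -- a point with nontrivial value
  obtain ⟨x₀, hx₀⟩ : ∃ x, ψ x ≠ 1 := by
    by_contra hcon
    push Not at hcon
    apply h1
    ext x
    rw [hcon x]
    simp
  obtain ⟨m₀, hm₀⟩ := Pool.Agent.Q247.HN.exists_pow_le x₀
  have hnorm : ∀ k : ℤ, ‖(p : ℚ_[p]) ^ k‖ = (p : ℝ) ^ (-k) := fun k => by
    rw [norm_zpow, Padic.norm_p, inv_zpow', ]
  set Q : ℤ → Prop := fun k => ∀ x : ℚ_[p], ‖x‖ ≤ 1 → ψ ((p : ℚ_[p]) ^ k * x) = 1 with hQ
  have hQ₀ : Q n₀ := by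
    intro x hx
    have h2 : (p : ℚ_[p]) ^ (n₀ : ℤ) * x ∈ Metric.ball (0 : ℚ_[p]) ε := by
      rw [mem_ball_zero_iff, norm_mul, hnorm, zpow_neg, zpow_natCast, ← inv_pow]
      refine lt_of_le_of_lt ?_ hn₀
      have : (0 : ℝ) ≤ ((p : ℝ)⁻¹) ^ n₀ := by positivity
      calc _ ≤ ((p : ℝ)⁻¹) ^ n₀ * 1 := by gcongr
        _ = _ := mul_one _
    exact hball h2
  have hbdd : ∀ k : ℤ, Q k → -(m₀ : ℤ) ≤ k := by
    intro k hk
    by_contra hcon
    push Not at hcon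
    apply hx₀
    have h2 : x₀ = (p : ℚ_[p]) ^ k * ((p : ℚ_[p]) ^ (-k) * x₀) := by
      rw [← mul_assoc, ← zpow_add₀ hp0, add_neg_cancel, zpow_zero, one_mul]
    rw [h2]
    apply hk
    rw [norm_mul, hnorm, neg_neg]
    calc (p : ℝ) ^ k * ‖x₀‖ ≤ (p : ℝ) ^ k * (p : ℝ) ^ m₀ := by gcongr
      _ = (p : ℝ) ^ (k + m₀) := by rw [zpow_add₀ hpos.ne', zpow_natCast]
      _ ≤ 1 := zpow_le_one_of_nonpos₀ hpp.le (by omega)
  obtain ⟨κ, hκ, hmin⟩ := Int.exists_least_of_bdd ⟨-(m₀ : ℤ), hbdd⟩ ⟨_, hQ₀⟩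
  refine ⟨κ, hκ, fun h2 => ?_⟩
  have h3 : ¬ Q (κ - 1) := fun h => by
    have := hmin _ h
    omega
  apply h3
  intro x hx
  -- `x = r + p z`
  obtain ⟨r, -, hr⟩ := Pool.Agent.Q247.HN.red1 1 (x * (p : ℚ_[p])⁻¹) (by
    rw [norm_mul, norm_inv, Padic.norm_p, inv_inv, pow_one]
    calc _ ≤ 1 * (p : ℝ) := by gcongr
      _ = _ := one_mul _)
  rw [pow_one] at hr
  have h4 : (p : ℚ_[p]) ^ (κ - 1) * x = (r : ℚ_[p]) * ((p : ℚ_[p]) ^ κ * (p : ℚ_[p])⁻¹) +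
      (p : ℚ_[p]) ^ κ * (x * (p : ℚ_[p])⁻¹ - (r : ℚ_[p]) / (p : ℚ_[p])) := by
    rw [zpow_sub₀ hp0, zpow_one]
    field_simp
    ring
  rw [h4, AddChar.map_add_eq_mul, hκ _ hr, mul_one, ← nsmul_eq_mul, AddChar.map_nsmul_eq_pow, h2,
    one_pow]

/-- The vector of `W` that corresponds to `y`. -/
noncomputable def scale (κ : ℤ) (y : Fin d ⊕ Fin d → ℚ_[p]) : Fin d ⊕ Fin d → ℚ_[p] :=
  Sum.elim (fun i => y (Sum.inl i)) (fun i => (p : ℚ_[p]) ^ κ * y (Sum.inr i))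

theorem scale_smul (κ : ℤ) (s : ℚ_[p]) (y : Fin d ⊕ Fin d → ℚ_[p]) :
    scale κ (s • y) = s • scale κ y := by
  funext j
  rcases j with j | j
  · rfl
  · simp only [scale, Sum.elim_inr, Pi.smul_apply, smul_eq_mul]
    ring

theorem rhoFun_scale (ψ : AddChar ℚ_[p] ℂ_[p]) (κ : ℤ) (χ : AddChar ℚ_[p] ℂ_[p])
    (hχ : ∀ x, χ x = ψ ((p : ℚ_[p]) ^ κ * x)) (y : Fin d ⊕ Fin d → ℚ_[p]) (t : ℚ_[p])
    (f : (Fin d → ℚ_[p]) → ℂ_[p]) :
    rhoFun ψ (scale κ y) t f =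
      ψ (t + (1 / 2) * ((scale κ y ∘ Sum.inl) ⬝ᵥ (scale κ y ∘ Sum.inr))) •
        Pool.Agent.Q247.HN.E χ y f := by
  funext x
  rw [Pi.smul_apply, smul_eq_mul, Pool.Agent.Q247.HN.E_apply, rhoFun, AddChar.map_add_eq_mul,
    mul_assoc, hχ]
  congr 2
  congr 1
  rw [dotProduct, mul_sum]
  refine sum_congr rfl fun i _ => ?_
  simp only [Function.comp, scale, Sum.elim_inr]
  ring

theorem scale_surj (κ : ℤ) (w : Fin d ⊕ Fin d → ℚ_[p]) : ∃ y, scale κ y = w := by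
  have hp0 := Pool.Agent.Q247.HN.p_ne (p := p)
  refine ⟨Sum.elim (fun i => w (Sum.inl i)) (fun i => (p : ℚ_[p]) ^ (-κ) * w (Sum.inr i)), ?_⟩
  funext j
  rcases j with j | j
  · rfl
  · simp only [scale, Sum.elim_inr]
    rw [← mul_assoc, ← zpow_add₀ hp0, add_neg_cancel, zpow_zero, one_mul]

theorem norm_ψ {ψ : AddChar ℚ_[p] ℂ_[p]} {κ : ℤ} {χ : AddChar ℚ_[p] ℂ_[p]}
    (hχ : ∀ x, χ x = ψ ((p : ℚ_[p]) ^ κ * x)) (h : Pool.Agent.Q247.HN.Good χ) (x : ℚ_[p]) :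
    ‖ψ x‖ = 1 := by
  have hp0 := Pool.Agent.Q247.HN.p_ne (p := p)
  have h1 := h.norm_eq ((p : ℚ_[p]) ^ (-κ) * x)
  rw [hχ, ← mul_assoc, ← zpow_add₀ hp0, add_neg_cancel, zpow_zero, one_mul] at h1
  exact h1

/-- For every intertwiner there is a coordinate direction in which the sums stay large. -/
theorem large (hd : 1 ≤ d) {ψ : AddChar ℚ_[p] ℂ_[p]} (hψ : IsOpen {x | ψ x = 1}) {κ : ℤ}
    {χ : AddChar ℚ_[p] ℂ_[p]} (hχ : ∀ x, χ x = ψ ((p : ℚ_[p]) ^ κ * x))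
    (h : Pool.Agent.Q247.HN.Good χ) {g : Matrix (Fin d ⊕ Fin d) (Fin d ⊕ Fin d) ℚ_[p]}
    (hg : g ∈ Matrix.symplecticGroup (Fin d) ℚ_[p]) {T : Schwartz p ℂ_[p] d → Schwartz p ℂ_[p] d}
    (hT : IsOperator ψ hψ g T) :
    ∃ (i : Fin d ⊕ Fin d) (j : ℕ) (c : ℝ), 0 < c ∧ ∀ N : ℕ, j ≤ N →
      ∀ u : Schwartz p ℂ_[p] d, (u : (Fin d → ℚ_[p]) → ℂ_[p]) = Pool.Agent.Q247.HN.F χ i N 0 →
        c ≤ supNorm (T u) := by
  classical
  have hp0 := Pool.Agent.Q247.HN.p_ne (p := p)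
  have hdet : IsUnit g.det := SymplecticGroup.symplectic_det hg
  -- the vectors `z_i`
  set z : Fin d ⊕ Fin d → (Fin d ⊕ Fin d → ℚ_[p]) :=
    fun i => Matrix.vecMul (scale κ (Pool.Agent.Q247.HN.sg i 1)) g⁻¹ with hz
  have hrow : ∀ i j, z i j =
      (match i with | Sum.inl _ => 1 | Sum.inr _ => (p : ℚ_[p]) ^ κ) * g⁻¹ i j := by
    intro i j
    have h1 : scale κ (Pool.Agent.Q247.HN.sg i 1) = (Pi.single i
        (match i with | Sum.inl _ => 1 | Sum.inr _ => (p : ℚ_[p]) ^ κ) :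
          Fin d ⊕ Fin d → ℚ_[p]) := by
      funext l
      rcases i with i | i <;> rcases l with l | l
      · simp [scale, Pool.Agent.Q247.HN.sg, Pi.single_apply]
      · simp [scale, Pool.Agent.Q247.HN.sg, Pi.single_apply]
      · simp [scale, Pool.Agent.Q247.HN.sg, Pi.single_apply]
      · simp [scale, Pool.Agent.Q247.HN.sg, Pi.single_apply]
    rw [hz]
    simp only
    rw [h1, Matrix.single_vecMul]
    rfl
  obtain ⟨i, hi⟩ : ∃ i, (z i ∘ Sum.inl : Fin d → ℚ_[p]) ≠ 0 := by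
    by_contra hcon
    push Not at hcon
    have h2 : ∀ i l, g⁻¹ i (Sum.inl l) = 0 := by
      intro i l
      have h3 := congrFun (hcon i) l
      rw [Function.comp, hrow, Pi.zero_apply] at h3
      refine (mul_eq_zero.1 h3).resolve_left ?_
      rcases i with i | i
      · exact one_ne_zero
      · exact zpow_ne_zero _ hp0
    have h3 := Matrix.mul_nonsing_inv g hdet
    have h4 := congrFun (congrFun h3 (Sum.inl ⟨0, hd⟩)) (Sum.inl ⟨0, hd⟩)
    rw [Matrix.mul_apply, Matrix.one_apply_eq] at h4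
    rw [sum_eq_zero (fun l _ => by rw [h2, mul_zero])] at h4
    exact zero_ne_one h4
  -- the function `f = T v₀`
  set v : Schwartz p ℂ_[p] d := ⟨Pool.Agent.Q247.HN.v0 p ℂ_[p] d, Pool.Agent.Q247.HN.v0_mem⟩ with hv
  set f : (Fin d → ℚ_[p]) → ℂ_[p] := (T v : (Fin d → ℚ_[p]) → ℂ_[p]) with hf
  obtain ⟨R, hR⟩ := (T v).2.2.isBounded.exists_norm_le
  have hfR : ∀ x, R < ‖x‖ → f x = 0 := by
    intro x hx
    by_contra h0
    exact absurd (hR x (subset_tsupport _ h0)) (not_le.2 hx)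
  set G : ℚ_[p] → (Fin d → ℚ_[p]) → ℂ_[p] := fun s => rhoFun ψ (s • z i) 0 f with hG
  obtain ⟨j, hj⟩ := Pool.Agent.Q247.HN.stabilize (G := G) (a := z i ∘ Sum.inl) hi (R := R)
    (fun s x hs => by
      rw [hG]
      simp only [rhoFun]
      have : f (x + (s • z i) ∘ Sum.inl) = 0 := hfR _ hs
      rw [this, mul_zero])
  -- `T u_N`
  have hTu : ∀ (N : ℕ) (u : Schwartz p ℂ_[p] d),
      (u : (Fin d → ℚ_[p]) → ℂ_[p]) = Pool.Agent.Q247.HN.F χ i N 0 → ∀ x,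
      (T u : (Fin d → ℚ_[p]) → ℂ_[p]) x =
        ∑ t ∈ range (p ^ N), G ((t : ℚ_[p]) / (p : ℚ_[p]) ^ N) x := by
    intro N u hu x
    have h1 : u = ∑ t ∈ range (p ^ N), rho ψ hψ
        (scale κ (Pool.Agent.Q247.HN.sg i ((t : ℚ_[p]) / (p : ℚ_[p]) ^ N))) 0 v := by
      apply Subtype.ext
      rw [hu, Submodule.coe_sum, Pool.Agent.Q247.HN.F]
      refine sum_congr rfl fun t _ => ?_
      rw [zero_mul, pow_zero, one_smul, Pool.Agent.Q247.HN.X]
      change _ = rhoFun ψ _ 0 _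
      rw [rhoFun_scale ψ κ χ hχ]
      have h2 : (scale κ (Pool.Agent.Q247.HN.sg i ((t : ℚ_[p]) / (p : ℚ_[p]) ^ N)) ∘ Sum.inl) ⬝ᵥ
          (scale κ (Pool.Agent.Q247.HN.sg i ((t : ℚ_[p]) / (p : ℚ_[p]) ^ N)) ∘ Sum.inr) =
          (0 : ℚ_[p]) := by
        have h3 := Pool.Agent.Q247.HN.B_sg i ((t : ℚ_[p]) / (p : ℚ_[p]) ^ N)
          ((t : ℚ_[p]) / (p : ℚ_[p]) ^ N)
        rw [Pool.Agent.Q247.HN.B] at h3
        rw [dotProduct]
        calc _ = (p : ℚ_[p]) ^ κ * ∑ l, (Pool.Agent.Q247.HN.sg i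
              ((t : ℚ_[p]) / (p : ℚ_[p]) ^ N) : Fin d ⊕ Fin d → ℚ_[p]) (Sum.inl l) *
              (Pool.Agent.Q247.HN.sg i ((t : ℚ_[p]) / (p : ℚ_[p]) ^ N) :
                Fin d ⊕ Fin d → ℚ_[p]) (Sum.inr l) := by
              rw [mul_sum]
              refine sum_congr rfl fun l _ => ?_
              simp only [Function.comp, scale, Sum.elim_inl, Sum.elim_inr]
              ring
          _ = 0 := by rw [h3, mul_zero]
      rw [h2, mul_zero, add_zero, AddChar.map_zero_eq_one, one_smul]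
    have h0 : T u = ∑ t ∈ range (p ^ N), T (rho ψ hψ
        (scale κ (Pool.Agent.Q247.HN.sg i ((t : ℚ_[p]) / (p : ℚ_[p]) ^ N))) 0 v) := by
      rw [h1]
      exact map_sum (hT.linear.mk' T) _ _
    rw [h0, Submodule.coe_sum, Finset.sum_apply]
    refine sum_congr rfl fun t _ => ?_
    have h2 : scale κ (Pool.Agent.Q247.HN.sg i ((t : ℚ_[p]) / (p : ℚ_[p]) ^ N)) =
        Matrix.vecMul (((t : ℚ_[p]) / (p : ℚ_[p]) ^ N) • z i) g := by
      have h3 : (Pool.Agent.Q247.HN.sg i ((t : ℚ_[p]) / (p : ℚ_[p]) ^ N) :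
          Fin d ⊕ Fin d → ℚ_[p]) = ((t : ℚ_[p]) / (p : ℚ_[p]) ^ N) •
            Pool.Agent.Q247.HN.sg i 1 := by
        rw [Pool.Agent.Q247.HN.sg, Pool.Agent.Q247.HN.sg, ← Pi.single_smul, smul_eq_mul, mul_one]
      rw [h3, scale_smul, Matrix.smul_vecMul, hz]
      simp only
      rw [Matrix.vecMul_vecMul, Matrix.nonsing_inv_mul g hdet, Matrix.vecMul_one]
    rw [h2, ← hT.intertwines]
    rfl
  -- the vector `u_j`
  have hmem : ∀ N, Pool.Agent.Q247.HN.F χ i N 0 ∈ Schwartz p ℂ_[p] d := by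
    intro N
    rw [Pool.Agent.Q247.HN.F]
    refine Submodule.sum_mem _ fun t _ => Submodule.smul_mem _ _ ?_
    exact Pool.Agent.Q247.HN.E_mem h _ Pool.Agent.Q247.HN.v0_mem
  set uj : Schwartz p ℂ_[p] d := ⟨Pool.Agent.Q247.HN.F χ i j 0, hmem j⟩ with huj
  have huj0 : T uj ≠ 0 := by
    intro h0
    have h1 : uj = 0 := hT.bijective.1 (by rw [h0, hT.linear.map_zero])
    exact Pool.Agent.Q247.HN.F_ne χ i j (congrArg Subtype.val h1)
  obtain ⟨x, hx⟩ : ∃ x, (T uj : (Fin d → ℚ_[p]) → ℂ_[p]) x ≠ 0 := by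
    by_contra hcon
    push Not at hcon
    exact huj0 (Subtype.ext (funext hcon))
  refine ⟨i, j, ‖(T uj : (Fin d → ℚ_[p]) → ℂ_[p]) x‖, norm_pos_iff.2 hx, fun N hN u hu => ?_⟩
  obtain ⟨M, rfl⟩ := Nat.exists_eq_add_of_le hN
  have h1 := hTu (j + M) u hu x
  have h2 := hTu j uj rfl x
  have h3 := hj x (by rw [← h2]; exact hx) M
  rw [h2, ← h3, ← h1]
  exact le_sup (T u) x

/-- **There is an `ℋ`-invariant norm that dominates no `‖·‖_α`.**  For every prime `p`, every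
`d ≥ 1` and every nontrivial smooth character `ψ : ℚ_p → ℂ_p^×`, there is an `ℋ`-invariant norm `N`
on `𝒮` that dominates none of the norms `‖·‖_α`. -/
theorem result (p : ℕ) [Fact p.Prime] (d : ℕ) (hd : 1 ≤ d) (ψ : AddChar ℚ_[p] ℂ_[p])
    (hψ : IsOpen {x | ψ x = 1}) (h1 : ψ ≠ 1) :
    ∃ N : Schwartz p ℂ_[p] d → ℝ, IsNorm N ∧ Invariant ψ hψ N ∧ DominatesNoAlpha ψ hψ N := by
  obtain ⟨κ, hκ, hκ'⟩ := exists_conductor hψ h1
  set χ : AddChar ℚ_[p] ℂ_[p] :=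
    ψ.compAddMonoidHom (AddMonoidHom.mulLeft ((p : ℚ_[p]) ^ κ)) with hχdef
  have hχ : ∀ x, χ x = ψ ((p : ℚ_[p]) ^ κ * x) := fun _ => rfl
  have h : Pool.Agent.Q247.HN.Good χ := ⟨fun x hx => by rw [hχ]; exact hκ x hx, by
    rw [hχ]
    exact hκ'⟩
  refine ⟨fun f => Pool.Agent.Q247.HN.nrm χ f.1, ⟨?_, ?_, ?_, ?_⟩, ?_, ?_⟩
  · intro f
    exact Pool.Agent.Q247.HN.nrm_nonneg χ _
  · intro f
    refine ⟨fun hf => Subtype.ext (Pool.Agent.Q247.HN.nrm_eq_zero h f.2 hf), fun hf => ?_⟩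
    rw [hf]
    exact Pool.Agent.Q247.HN.nrm_zero χ
  · intro c f
    exact Pool.Agent.Q247.HN.nrm_smul h f.2 c
  · intro f g
    exact Pool.Agent.Q247.HN.nrm_add h f.2 g.2
  · intro w t f
    obtain ⟨y, rfl⟩ := scale_surj κ w
    change Pool.Agent.Q247.HN.nrm χ (rhoFun ψ (scale κ y) t f) = _
    rw [rhoFun_scale ψ κ χ hχ, Pool.Agent.Q247.HN.nrm_smul h
      (Pool.Agent.Q247.HN.E_mem h y f.2), norm_ψ hχ h, one_mul,
      Pool.Agent.Q247.HN.nrm_E h y f.2]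
  · rintro g hg T hT M ⟨⟨r, hr, hM⟩, -⟩ ⟨c, hc, hdom⟩
    obtain ⟨i, j, c₀, hc₀, hlarge⟩ := large hd hψ hχ h hg hT
    have hmem : ∀ N, Pool.Agent.Q247.HN.F χ i N 0 ∈ Schwartz p ℂ_[p] d := by
      intro N
      rw [Pool.Agent.Q247.HN.F]
      refine Submodule.sum_mem _ fun t _ => Submodule.smul_mem _ _ ?_
      exact Pool.Agent.Q247.HN.E_mem h _ Pool.Agent.Q247.HN.v0_mem
    have hpp := Pool.Agent.Q247.HN.one_lt_p p
    have hpos := Pool.Agent.Q247.HN.p_pos p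
    -- choose `k` large
    obtain ⟨k₀, hk₀⟩ := exists_pow_lt_of_lt_one (div_pos (mul_pos hr hc₀) hc)
      (inv_lt_one_of_one_lt₀ hpp)
    set k := max j k₀ with hk
    set N := Pool.Agent.Q247.HN.nn p d (k + 1) with hN
    have hjN : j ≤ N := by
      have h2 := Pool.Agent.Q247.HN.mm_le_nn p d (k + 1)
      have h3 : j ≤ k := le_max_left _ _
      unfold Pool.Agent.Q247.HN.mm at h2
      omega
    set u : Schwartz p ℂ_[p] d := ⟨Pool.Agent.Q247.HN.F χ i N 0, hmem N⟩ with hu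
    have h2 := hlarge N hjN u rfl
    have h3 := hdom u
    have h4 : Pool.Agent.Q247.HN.nrm χ u.1 ≤ ((p : ℝ)⁻¹) ^ (k + 1) :=
      Pool.Agent.Q247.HN.nrm_u i k
    have h5 : ((p : ℝ)⁻¹) ^ (k + 1) ≤ ((p : ℝ)⁻¹) ^ k₀ := by
      apply pow_le_pow_of_le_one (inv_nonneg.2 hpos.le) (inv_le_one_of_one_le₀ hpp.le)
      have : k₀ ≤ k := le_max_right _ _
      omega
    rw [hM] at h3
    have h6 : r * supNorm (T u) < r * c₀ := by
      calc r * supNorm (T u) ≤ c * Pool.Agent.Q247.HN.nrm χ u.1 := h3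
        _ ≤ c * ((p : ℝ)⁻¹) ^ k₀ := by
            gcongr
            exact h4.trans h5
        _ < c * (r * c₀ / c) := by gcongr
        _ = r * c₀ := by field_simp
    exact absurd h2 (not_le.2 (lt_of_mul_lt_mul_left h6 hr.le))

end Pool.Agent.Results.MP_d060c1_nt.DominatesNone
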